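import Pool.Agent.L7h93.TH.Stm

/-! Project TH of helper93: part JET. -/

set_option autoImplicit false

namespace Pool.Agent.L7h77.TH

open Pool.Agent.Results.MP_e16cda_ag.ThreeMomentsFail Pool.Agent.L7h93.TH Finset

variable {g : ℕ}

theorem dot_add (s : Lat g) (x y : Sp g) : dot s (x + y) = dot s x + dot s y := by
  simp [dot, mul_add, Finset.sum_add_distrib]

theorem add_dot (s k : Lat g) (x : Sp g) : dot (s + k) x = dot s x + dot k x := by
  simp [dot, add_mul, Finset.sum_add_distrib]

theorem dot_single (s : Lat g) (i : Fin g) : dot s (Pi.single i 1) = (s i : ℂ) := by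
  unfold dot
  rw [Finset.sum_eq_single i]
  · simp
  · intro j _ hj
    rw [Pi.single_eq_of_ne hj, mul_zero]
  · intro h
    exact absurd (Finset.mem_univ i) h

theorem dot_eq (s : Lat g) (w : Sp g) : dot s w = ∑ i, w i * dot s (Pi.single i 1) := by
  simp only [dot_single]
  unfold dot
  exact Finset.sum_congr rfl fun i _ => mul_comm _ _

theorem norm_dot_le (s : Lat g) (x : Sp g) : ‖dot s x‖ ≤ (∑ i, ‖x i‖) * sz s := by
  unfold dot sz
  refine (norm_sum_le _ _).trans ?_
  rw [Finset.mul_sum]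
  refine Finset.sum_le_sum fun i _ => ?_
  rw [norm_mul]
  have h1 : ‖((s i : ℤ) : ℂ)‖ = |(s i : ℝ)| := by
    rw [← Complex.ofReal_intCast, Complex.norm_real, Real.norm_eq_abs]
  rw [h1, mul_comm]
  refine mul_le_mul_of_nonneg_right ?_ (abs_nonneg _)
  exact Finset.single_le_sum (f := fun i => ‖x i‖) (fun _ _ => norm_nonneg _) (Finset.mem_univ i)

theorem summable_Fs {c : Lat g → ℂ} (hc : Dec c) (x : Sp g) :
    Summable fun s => c s * Complex.exp (2 * Real.pi * dot s x) := by
  refine Summable.of_norm_bounded (hc (2 * Real.pi * ∑ i, ‖x i‖)) fun s => ?_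
  rw [norm_mul, Complex.norm_exp]
  refine mul_le_mul_of_nonneg_left (Real.exp_le_exp.2 ?_) (norm_nonneg _)
  refine (Complex.re_le_norm _).trans ?_
  rw [norm_mul, norm_mul]
  have h1 : ‖(2 : ℂ)‖ = 2 := by simp
  have h2 : ‖(Real.pi : ℂ)‖ = Real.pi := by
    rw [Complex.norm_real, Real.norm_eq_abs, abs_of_pos Real.pi_pos]
  rw [h1, h2, mul_assoc (2 * Real.pi)]
  exact mul_le_mul_of_nonneg_left (norm_dot_le s x) (by positivity)

theorem Fs_add {c c' : Lat g → ℂ} (hc : Dec c) (hc' : Dec c') (x : Sp g) :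
    Fs (fun s => c s + c' s) x = Fs c x + Fs c' x := by
  unfold Fs
  rw [← (summable_Fs hc x).tsum_add (summable_Fs hc' x)]
  exact tsum_congr fun s => by ring

theorem Fs_smul (a : ℂ) (c : Lat g → ℂ) (x : Sp g) : Fs (fun s => a * c s) x = a * Fs c x := by
  unfold Fs
  rw [← tsum_mul_left]
  exact tsum_congr fun s => by ring

theorem Fs_sum {c : Fin g → Lat g → ℂ} (hc : ∀ i, Dec (c i)) (w : Sp g) (x : Sp g) :
    Fs (fun s => ∑ i, w i * c i s) x = ∑ i, w i * Fs (c i) x := by
  have h1 : ∀ i ∈ (Finset.univ : Finset (Fin g)),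
      Summable fun s => w i * (c i s * Complex.exp (2 * Real.pi * dot s x)) :=
    fun i _ => (summable_Fs (hc i) x).mul_left _
  unfold Fs
  simp only [← tsum_mul_left]
  rw [← Summable.tsum_finsetSum h1]
  refine tsum_congr fun s => ?_
  rw [Finset.sum_mul]
  exact Finset.sum_congr rfl fun i _ => by ring

/-- the derivative in the direction `w` -/
theorem Fs_dv (hDV : S_DV) {c : Lat g → ℂ} (hc : Dec c) (w x : Sp g) :
    Fs (dv w 1 c) x = ∑ i, w i * Fs (dv (Pi.single i 1) 1 c) x := by
  rw [← Fs_sum (fun i => hDV g c hc _ 1)]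
  congr 1
  funext s
  simp only [dv, pow_one]
  rw [dot_eq, Finset.mul_sum, Finset.sum_mul]
  exact Finset.sum_congr rfl fun i _ => by ring

theorem inE_translate (B : Matrix (Fin g) (Fin g) ℂ) (a : Sp g) :
    InE B 1 a fun x => th B (x + a) := by
  refine ⟨fun s => Complex.exp (2 * Real.pi * dot s a), fun s k => ?_, ?_⟩
  · show Complex.exp _ = Complex.exp _ * Complex.exp _
    rw [← Complex.exp_add]
    congr 1
    have h : s + ((1 : ℕ) : ℤ) • k = s + k := by simp
    rw [h, add_dot]
    ring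
  · funext x
    unfold th Fs
    refine tsum_congr fun s => ?_
    unfold co
    rw [dot_add, mul_add, Complex.exp_add]
    ring

/-- products of three translates -/
theorem inE_three (hMUL : S_MUL) {B : Matrix (Fin g) (Fin g) ℂ} (hB : IsParameter B)
    (a b : Sp g) : InE B 3 0 fun x => th B (x + a) * th B (x + b) * th B (x + (-a - b)) := by
  have h1 := hMUL g B hB 1 1 le_rfl le_rfl a b _ _ (inE_translate B a) (inE_translate B b)
  have h2 := hMUL g B hB (1 + 1) 1 (by norm_num) le_rfl (a + b) (-a - b) _ _ h1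
    (inE_translate B (-a - b))
  have h3 : a + b + (-a - b) = 0 := by abel
  rwa [h3] at h2

theorem qp_one : QP 1 (0 : Sp g) fun _ => 1 := by
  intro s k
  simp [dot]

/-- the derivative of the theta function on lines -/
theorem th_deriv (hDEC : S_DEC) (hDER : S_DER) {B : Matrix (Fin g) (Fin g) ℂ} (hB : IsParameter B)
    (x w : Sp g) : HasDerivAt (fun t : ℂ => th B (x + t • w)) (thv B w x) 0 := by
  have h1 := hDER g _ (hDEC g B hB 1 le_rfl 0 _ qp_one) x w 0
  rwa [zero_smul, add_zero] at h1

/-- the space of the jets -/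
noncomputable def RR (hDEC : S_DEC) (hDV : S_DV) {B : Matrix (Fin g) (Fin g) ℂ}
    (hB : IsParameter B) (p : Sp g) : Submodule ℂ (ℂ × (Fin g → ℂ)) where
  carrier := {z | ∃ C : Lat g → ℂ, QP 3 0 C ∧ Fs (co B 3 C) p = z.1 ∧
    ∀ i, Fs (dv (Pi.single i 1) 1 (co B 3 C)) p = z.2 i}
  zero_mem' := by
    refine ⟨fun _ => 0, fun s k => by simp, ?_, fun i => ?_⟩
    · simp [Fs, co]
    · simp [Fs, co, dv]
  add_mem' := by
    rintro z z' ⟨C, h1, h2, h3⟩ ⟨C', h1', h2', h3'⟩
    have hC := hDEC g B hB 3 (by norm_num) 0 C h1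
    have hC' := hDEC g B hB 3 (by norm_num) 0 C' h1'
    have e : co B 3 (fun s => C s + C' s) = fun s => co B 3 C s + co B 3 C' s := by
      funext s
      simp only [co]
      ring
    refine ⟨fun s => C s + C' s, fun s k => ?_, ?_, fun i => ?_⟩
    · simp only
      rw [h1, h1']
      ring
    · rw [e, Fs_add hC hC', h2, h2']
      rfl
    · have e2 : dv (Pi.single i 1) 1 (fun s => co B 3 C s + co B 3 C' s) =
          fun s => dv (Pi.single i 1) 1 (co B 3 C) s + dv (Pi.single i 1) 1 (co B 3 C') s := by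
        funext s
        simp only [dv]
        ring
      rw [e, e2, Fs_add (hDV g _ hC _ 1) (hDV g _ hC' _ 1), h3, h3']
      rfl
  smul_mem' := by
    rintro a z ⟨C, h1, h2, h3⟩
    have e : co B 3 (fun s => a * C s) = fun s => a * co B 3 C s := by
      funext s
      simp only [co]
      ring
    refine ⟨fun s => a * C s, fun s k => ?_, ?_, fun i => ?_⟩
    · simp only
      rw [h1]
      ring
    · rw [e, Fs_smul, h2]
      rfl
    · have e2 : dv (Pi.single i 1) 1 (fun s => a * co B 3 C s) =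
          fun s => a * dv (Pi.single i 1) 1 (co B 3 C) s := by
        funext s
        simp only [dv]
        ring
      rw [e, e2, Fs_smul, h3]
      rfl

theorem RR_top (hDEC : S_DEC) (hDV : S_DV) (hDER : S_DER) (hMUL : S_MUL) (hANN : S_ANN)
    {B : Matrix (Fin g) (Fin g) ℂ} (hB : IsParameter B) (p : Sp g) :
    RR hDEC hDV hB p = ⊤ := by
  by_contra hne
  obtain ⟨φ, hφ, hφ2⟩ := Submodule.exists_le_ker_of_lt_top _ (lt_top_iff_ne_top.2 hne)
  apply hφ
  have hφe : ∀ z : ℂ × (Fin g → ℂ), φ z = φ (1, 0) * z.1 + ∑ i, φ (0, Pi.single i 1) * z.2 i := by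
    intro z
    have h1 : z = z.1 • ((1 : ℂ), (0 : Fin g → ℂ)) + ∑ i, z.2 i • ((0 : ℂ), (Pi.single i 1 : Fin g → ℂ)) := by
      refine Prod.ext ?_ ?_
      · simp [Prod.fst_sum]
      · funext j
        simp only [Prod.snd_add, Prod.smul_snd, smul_zero, Pi.add_apply, Pi.zero_apply, zero_add,
          Prod.snd_sum, Finset.sum_apply, Pi.smul_apply, smul_eq_mul]
        rw [Finset.sum_eq_single j]
        · simp
        · intro i _ hi
          rw [Pi.single_eq_of_ne (Ne.symm hi), mul_zero]
        · intro h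
          exact absurd (Finset.mem_univ j) h
    conv_lhs => rw [h1]
    rw [map_add, map_smul, map_sum, smul_eq_mul, mul_comm]
    congr 1
    refine Finset.sum_congr rfl fun i _ => ?_
    rw [map_smul, smul_eq_mul, mul_comm]
  obtain ⟨hc0, hv⟩ := hANN g B hB (p + p + p) (φ (1, 0)) (fun i => φ (0, Pi.single i 1)) (by
    intro x y z hxyz
    set v : Sp g := fun i => φ (0, Pi.single i 1) with hvd
    obtain ⟨C, hC1, hC2⟩ := inE_three hMUL hB (x - p) (y - p)
    have ex : p + (x - p) = x := by abel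
    have ey : p + (y - p) = y := by abel
    have ez : p + (-(x - p) - (y - p)) = z := by
      have : z = p + p + p - x - y := by rw [← hxyz]; abel
      rw [this]
      abel
    have hmem : (Fs (co B 3 C) p, fun i => Fs (dv (Pi.single i 1) 1 (co B 3 C)) p) ∈
        RR hDEC hDV hB p := ⟨C, hC1, rfl, fun i => rfl⟩
    have h0 : φ (Fs (co B 3 C) p, fun i => Fs (dv (Pi.single i 1) 1 (co B 3 C)) p) = 0 :=
      hφ2 hmem
    rw [hφe] at h0
    have hd : ∀ w : Sp g, Fs (dv w 1 (co B 3 C)) p = thv B w x * th B y * th B z +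
        th B x * thv B w y * th B z + th B x * th B y * thv B w z := by
      intro w
      have h1 := hDER g _ (hDEC g B hB 3 (by norm_num) 0 C hC1) p w 0
      rw [zero_smul, add_zero, ← hC2] at h1
      have h2 := ((th_deriv hDEC hDER hB x w).mul (th_deriv hDEC hDER hB y w)).mul
        (th_deriv hDEC hDER hB z w)
      have h3 : (fun t : ℂ => th B (p + t • w + (x - p)) * th B (p + t • w + (y - p)) *
          th B (p + t • w + (-(x - p) - (y - p)))) =
          ((fun t : ℂ => th B (x + t • w)) * fun t => th B (y + t • w)) *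
            fun t => th B (z + t • w) := by
        funext t
        have e1 : p + t • w + (x - p) = x + t • w := by abel
        have e2 : p + t • w + (y - p) = y + t • w := by abel
        have e3 : p + t • w + (-(x - p) - (y - p)) = z + t • w := by
          rw [← ez]
          abel
        simp only [Pi.mul_apply, e1, e2, e3]
      rw [h3] at h1
      rw [h1.unique h2]
      simp only [Pi.mul_apply, zero_smul, add_zero]
      ring
    have hval : Fs (co B 3 C) p = th B x * th B y * th B z := by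
      rw [← hC2]
      simp only [ex, ey, ez]
    have hCd := hDEC g B hB 3 (by norm_num) 0 C hC1
    have hsum := Fs_dv hDV hCd v p
    rw [hd v] at hsum
    simp only at h0
    rw [hval] at h0
    rw [← h0]
    have h4 : ∑ i, φ (0, Pi.single i 1) * Fs (dv (Pi.single i 1) 1 (co B 3 C)) p =
        ∑ i, v i * Fs (dv (Pi.single i 1) 1 (co B 3 C)) p := rfl
    rw [h4, ← hsum]
    ring)
  apply LinearMap.ext
  intro z
  rw [hφe, hc0, LinearMap.zero_apply, zero_mul, zero_add]
  refine Finset.sum_eq_zero fun i _ => ?_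
  have h5 := congrFun hv i
  simp only [Pi.zero_apply] at h5
  rw [h5, zero_mul]

theorem s_JET (hDEC : S_DEC) (hDV : S_DV) (hTAY : S_TAY) (hDER : S_DER) (hMUL : S_MUL)
    (hANN : S_ANN) : S_JET := by
  intro g B hB p
  have htop := RR_top hDEC hDV hDER hMUL hANN hB p
  have hall : ∀ z : ℂ × (Fin g → ℂ), ∃ C : Lat g → ℂ, QP 3 0 C ∧ Fs (co B 3 C) p = z.1 ∧
      ∀ i, Fs (dv (Pi.single i 1) 1 (co B 3 C)) p = z.2 i := by
    intro z
    have : z ∈ RR hDEC hDV hB p := by
      rw [htop]
      trivial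
    exact this
  obtain ⟨C₀, h1, h2, h3⟩ := hall (1, 0)
  choose C hC1 hC2 hC3 using fun i : Fin g => hall (0, Pi.single i 1)
  refine ⟨Fs (co B 3 C₀), fun i => Fs (co B 3 (C i)), ⟨C₀, h1, rfl⟩, fun i => ⟨C i, hC1 i, rfl⟩,
    fun w => ?_⟩
  have hD0 := hDEC g B hB 3 (by norm_num) 0 C₀ h1
  have hD := fun i => hDEC g B hB 3 (by norm_num) 0 (C i) (hC1 i)
  obtain ⟨K₀, hK₀⟩ := hTAY g _ hD0 p w 1
  choose K hK using fun i => hTAY g _ (hD i) p w 2
  have hdv0 : ∀ c : Lat g → ℂ, dv w 0 c = c := fun c => by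
    funext s
    simp [dv]
  refine ⟨|K₀| + ∑ i, |K i|, fun t ht => ⟨?_, fun i => ?_⟩⟩
  · have h4 := hK₀ t ht
    simp only [Finset.sum_range_one, pow_zero, Nat.factorial_zero, Nat.cast_one, div_one, one_mul,
      pow_one, hdv0, h2] at h4
    refine h4.trans (mul_le_mul_of_nonneg_right ?_ (norm_nonneg _))
    have h5 : 0 ≤ ∑ i, |K i| := Finset.sum_nonneg fun _ _ => abs_nonneg _
    linarith [le_abs_self K₀]
  · have h4 := hK i t ht
    rw [Finset.sum_range_succ, Finset.sum_range_one] at h4
    simp only [pow_zero, Nat.factorial_zero, Nat.cast_one, div_one, one_mul, pow_one,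
      hdv0, hC2, Nat.factorial_one] at h4
    have h5 : Fs (dv w 1 (co B 3 (C i))) p = w i := by
      rw [Fs_dv hDV (hD i)]
      simp only [hC3]
      rw [Finset.sum_eq_single i]
      · simp
      · intro j _ hj
        rw [Pi.single_eq_of_ne hj, mul_zero]
      · intro h
        exact absurd (Finset.mem_univ i) h
    rw [h5, zero_add] at h4
    refine h4.trans (mul_le_mul_of_nonneg_right ?_ (by positivity))
    have h6 : |K i| ≤ ∑ i, |K i| :=
      Finset.single_le_sum (f := fun i => |K i|) (fun _ _ => abs_nonneg _) (Finset.mem_univ i)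
    linarith [le_abs_self (K i), abs_nonneg K₀]

end Pool.Agent.L7h77.TH
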